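import Pool.Agent.helper26.T5.SpecA

/-! Row t5:LQ2 (MP_16912e_nt): a binary quadratic form whose discriminant is a nonzero square modulo `p`. -/

set_option autoImplicit false

namespace Pool.Agent.helper45.T5

open Pool.Agent.helper26.T5

theorem LQ2_lin (p : ℕ) [Fact p.Prime] (a b c d : ZMod p) (h : a * d - b * c ≠ 0) :
    (Finset.univ.filter (fun v : ZMod p × ZMod p =>
      (a * v.1 + b * v.2) * (c * v.1 + d * v.2) ≠ 0)).card = (p - 1) ^ 2 := by
  have h1 : (((Finset.univ : Finset (ZMod p)).erase 0) ×ˢ ((Finset.univ : Finset (ZMod p)).erase 0)).card =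
      (p - 1) ^ 2 := by
    rw [Finset.card_product, Finset.card_erase_of_mem (Finset.mem_univ _), Finset.card_univ, ZMod.card, pow_two]
  rw [← h1]
  obtain ⟨e, he⟩ : ∃ e : ZMod p, (a * d - b * c) * e = 1 := ⟨_, mul_inv_cancel₀ h⟩
  apply Finset.card_nbij' (fun v => (a * v.1 + b * v.2, c * v.1 + d * v.2))
    (fun w => ((d * w.1 - b * w.2) * e, (a * w.2 - c * w.1) * e))
  · intro v hv
    have hv2 := (Finset.mem_filter.mp hv).2
    rw [mul_ne_zero_iff] at hv2
    simp only [Finset.coe_product, Finset.coe_erase, Finset.coe_univ, Set.mem_prod, Set.mem_sdiff,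
      Set.mem_univ, Set.mem_singleton_iff, true_and]
    exact hv2
  · intro w hw
    simp only [Finset.coe_product, Finset.coe_erase, Finset.coe_univ, Set.mem_prod, Set.mem_sdiff,
      Set.mem_univ, Set.mem_singleton_iff, true_and] at hw
    rw [Finset.mem_coe, Finset.mem_filter]
    refine ⟨Finset.mem_univ _, ?_⟩
    have e1 : a * ((d * w.1 - b * w.2) * e) + b * ((a * w.2 - c * w.1) * e) = w.1 := by
      linear_combination w.1 * he
    have e2 : c * ((d * w.1 - b * w.2) * e) + d * ((a * w.2 - c * w.1) * e) = w.2 := by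
      linear_combination w.2 * he
    simp only [e1, e2]
    exact mul_ne_zero hw.1 hw.2
  · intro v _
    apply Prod.ext
    · simp only
      linear_combination v.1 * he
    · simp only
      linear_combination v.2 * he
  · intro w _
    apply Prod.ext
    · simp only
      linear_combination w.1 * he
    · simp only
      linear_combination w.2 * he

/-- transfer to the field with `p` elements -/
theorem LQ2_cast (p : ℕ) [Fact p.Prime] (A B C : ℤ) :
    ((Pool.Agent.helper26.T5.sq p).filter (fun v => ¬ (p : ℤ) ∣ A * v.1 ^ 2 + B * v.1 * v.2 + C * v.2 ^ 2)).card =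
    (Finset.univ.filter (fun v : ZMod p × ZMod p =>
      (A : ZMod p) * v.1 ^ 2 + (B : ZMod p) * v.1 * v.2 + (C : ZMod p) * v.2 ^ 2 ≠ 0)).card := by
  apply Finset.card_nbij' (fun v => ((v.1 : ZMod p), (v.2 : ZMod p))) (fun w => (w.1.val, w.2.val))
  · intro v hv
    have hv2 := (Finset.mem_filter.mp hv).2
    rw [Finset.mem_coe, Finset.mem_filter]
    refine ⟨Finset.mem_univ _, fun h0 => hv2 ?_⟩
    rw [← ZMod.intCast_zmod_eq_zero_iff_dvd]
    push_cast
    exact h0
  · intro w hw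
    have hw2 := (Finset.mem_filter.mp hw).2
    rw [Finset.mem_coe, Finset.mem_filter]
    refine ⟨?_, fun h0 => hw2 ?_⟩
    · rw [Pool.Agent.helper26.T5.sq, Finset.mem_product, Finset.mem_range, Finset.mem_range]
      exact ⟨ZMod.val_lt _, ZMod.val_lt _⟩
    · rw [← ZMod.intCast_zmod_eq_zero_iff_dvd] at h0
      push_cast at h0
      simpa only [ZMod.natCast_val, ZMod.cast_id', id_eq] using h0
  · intro v hv
    have hv1 := (Finset.mem_filter.mp hv).1
    rw [Pool.Agent.helper26.T5.sq, Finset.mem_product, Finset.mem_range, Finset.mem_range] at hv1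
    apply Prod.ext
    · exact ZMod.val_natCast_of_lt hv1.1
    · exact ZMod.val_natCast_of_lt hv1.2
  · intro w _
    apply Prod.ext
    · simp
    · simp

theorem lq2 : LQ2 := by
  intro p hp A B C hD hb
  obtain ⟨b, hb⟩ := hb
  have : Fact p.Prime := ⟨hp⟩
  rcases hp.eq_two_or_odd' with rfl | hodd
  · -- p = 2
    have hb8 : (8 : ℤ) ∣ b ^ 2 - (B ^ 2 - 4 * A * C) := by
      have : (4 * (2 : ℕ) : ℤ) = 8 := by norm_num
      rwa [this] at hb
    have hBodd : B % 2 = 1 := by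
      by_contra hcon
      have h0 : B % 2 = 0 := by omega
      apply hD
      obtain ⟨k, hk⟩ := Int.dvd_of_emod_eq_zero h0
      refine ⟨2 * k ^ 2 - 2 * A * C, ?_⟩
      rw [hk]; push_cast; ring
    have hbodd : b % 2 = 1 := by
      by_contra hcon
      have h0 : b % 2 = 0 := by omega
      apply hD
      obtain ⟨k, hk⟩ := Int.dvd_of_emod_eq_zero h0
      obtain ⟨l, hl⟩ := hb8
      refine ⟨2 * k ^ 2 - 4 * l, ?_⟩
      push_cast
      have : B ^ 2 - 4 * A * C = b ^ 2 - 8 * l := by linarith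
      rw [this, hk]; ring
    have hAC : A * C % 2 = 0 := by
      obtain ⟨k, hk⟩ : ∃ k, B = 2 * k + 1 := ⟨B / 2, by omega⟩
      obtain ⟨l, hl⟩ : ∃ l, b = 2 * l + 1 := ⟨b / 2, by omega⟩
      obtain ⟨k', hk'⟩ := Int.even_mul_succ_self k
      obtain ⟨l', hl'⟩ := Int.even_mul_succ_self l
      obtain ⟨t, ht⟩ := hb8
      have e1 : b ^ 2 - (B ^ 2 - 4 * A * C) = 4 * (l * (l + 1)) - 4 * (k * (k + 1)) + 4 * (A * C) := by
        rw [hk, hl]; ring
      rw [e1, hk', hl'] at ht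
      omega
    have hsq : Pool.Agent.helper26.T5.sq 2 = {(0, 0), (0, 1), (1, 0), (1, 1)} := by decide
    rw [hsq]
    have h00 : ¬ ¬ ((2 : ℕ) : ℤ) ∣ A * (((0 : ℕ), (0 : ℕ)).1 : ℤ) ^ 2 + B * (((0 : ℕ), (0 : ℕ)).1 : ℤ) * (((0 : ℕ), (0 : ℕ)).2 : ℤ) +
        C * (((0 : ℕ), (0 : ℕ)).2 : ℤ) ^ 2 := by
      simp
    have hcase : (A % 2 = 0 ∧ C % 2 = 1) ∨ (A % 2 = 1 ∧ C % 2 = 0) ∨ (A % 2 = 0 ∧ C % 2 = 0) := by
      have hA := Int.emod_two_eq_zero_or_one A
      have hC := Int.emod_two_eq_zero_or_one C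
      rcases hA with hA | hA <;> rcases hC with hC | hC
      · exact Or.inr (Or.inr ⟨hA, hC⟩)
      · exact Or.inl ⟨hA, hC⟩
      · exact Or.inr (Or.inl ⟨hA, hC⟩)
      · exfalso
        rw [Int.mul_emod, hA, hC] at hAC
        norm_num at hAC
    have hf : ∀ P : ℕ × ℕ → Prop, ∀ [DecidablePred P], ¬ P (0, 0) →
        ((P (0, 1) ∧ ¬ P (1, 0) ∧ ¬ P (1, 1)) ∨ (¬ P (0, 1) ∧ P (1, 0) ∧ ¬ P (1, 1)) ∨
          (¬ P (0, 1) ∧ ¬ P (1, 0) ∧ P (1, 1))) →
        (({(0, 0), (0, 1), (1, 0), (1, 1)} : Finset (ℕ × ℕ)).filter P).card = 1 := by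
      intro P _ h0 h
      rcases h with ⟨h1, h2, h3⟩ | ⟨h1, h2, h3⟩ | ⟨h1, h2, h3⟩ <;>
        simp [Finset.filter_insert, Finset.filter_singleton, h0, h1, h2, h3]
    rw [hf _ h00]
    · norm_num
    · have q01 : A * (((0 : ℕ), (1 : ℕ)).1 : ℤ) ^ 2 + B * (((0 : ℕ), (1 : ℕ)).1 : ℤ) * (((0 : ℕ), (1 : ℕ)).2 : ℤ) +
          C * (((0 : ℕ), (1 : ℕ)).2 : ℤ) ^ 2 = C := by simp
      have q10 : A * (((1 : ℕ), (0 : ℕ)).1 : ℤ) ^ 2 + B * (((1 : ℕ), (0 : ℕ)).1 : ℤ) * (((1 : ℕ), (0 : ℕ)).2 : ℤ) +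
          C * (((1 : ℕ), (0 : ℕ)).2 : ℤ) ^ 2 = A := by simp
      have q11 : A * (((1 : ℕ), (1 : ℕ)).1 : ℤ) ^ 2 + B * (((1 : ℕ), (1 : ℕ)).1 : ℤ) * (((1 : ℕ), (1 : ℕ)).2 : ℤ) +
          C * (((1 : ℕ), (1 : ℕ)).2 : ℤ) ^ 2 = A + B + C := by simp
      rw [q01, q10, q11]
      rcases hcase with ⟨hA, hC⟩ | ⟨hA, hC⟩ | ⟨hA, hC⟩
      · left
        refine ⟨?_, ?_, ?_⟩ <;> push_cast <;> omega
      · right; left
        refine ⟨?_, ?_, ?_⟩ <;> push_cast <;> omega
      · right; right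
        refine ⟨?_, ?_, ?_⟩ <;> push_cast <;> omega
  · have h2 : (2 : ZMod p) ≠ 0 := by
      intro h0
      have : ((2 : ℕ) : ZMod p) = 0 := by exact_mod_cast h0
      rw [ZMod.natCast_eq_zero_iff] at this
      have h3 := (Nat.prime_dvd_prime_iff_eq hp Nat.prime_two).mp this
      subst h3
      exact absurd hodd (by decide)
    have hD0 : (B : ZMod p) ^ 2 - 4 * A * C ≠ 0 := by
      intro h0
      apply hD
      rw [← ZMod.intCast_zmod_eq_zero_iff_dvd]
      push_cast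
      exact h0
    have hbD : (b : ZMod p) ^ 2 = (B : ZMod p) ^ 2 - 4 * A * C := by
      have h1 : (p : ℤ) ∣ b ^ 2 - (B ^ 2 - 4 * A * C) := dvd_trans (Dvd.intro_left 4 rfl) hb
      rw [← ZMod.intCast_zmod_eq_zero_iff_dvd] at h1
      push_cast at h1
      exact sub_eq_zero.mp h1
    have hb0 : (b : ZMod p) ≠ 0 := by
      intro h0
      rw [← hbD, h0] at hD0
      exact hD0 (by ring)
    rw [LQ2_cast]
    by_cases hA : (A : ZMod p) = 0
    · have hB : (B : ZMod p) ≠ 0 := by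
        intro h0
        rw [hA, h0] at hD0
        exact hD0 (by ring)
      rw [← LQ2_lin p 0 1 B C (by simpa using hB)]
      congr 1
      apply Finset.filter_congr
      intro v _
      have : (A : ZMod p) * v.1 ^ 2 + (B : ZMod p) * v.1 * v.2 + (C : ZMod p) * v.2 ^ 2 =
          (0 * v.1 + 1 * v.2) * (B * v.1 + C * v.2) := by
        rw [hA]; ring
      rw [this]
    · rw [← LQ2_lin p (2 * A) (B - b) (2 * A) (B + b) (by
        have : (2 * (A : ZMod p)) * (B + b) - (B - b) * (2 * A) = 2 * 2 * A * b := by ring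
        rw [this]
        exact mul_ne_zero (mul_ne_zero (mul_ne_zero h2 h2) hA) hb0)]
      congr 1
      apply Finset.filter_congr
      intro v _
      have : (2 * (A : ZMod p) * v.1 + (B - b) * v.2) * (2 * A * v.1 + (B + b) * v.2) =
          (2 * 2 * A) * ((A : ZMod p) * v.1 ^ 2 + (B : ZMod p) * v.1 * v.2 + (C : ZMod p) * v.2 ^ 2) := by
        linear_combination (-(v.2 ^ 2)) * hbD
      rw [this]
      constructor
      · intro h
        exact mul_ne_zero (mul_ne_zero (mul_ne_zero h2 h2) hA) h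
      · intro h h0
        exact h (by rw [h0, mul_zero])

end Pool.Agent.helper45.T5
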